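import Pool.Agent.K1H45.VX.Chain

/-!
# A smooth hypersurface of degree at least two contains no hyperplane
-/

set_option autoImplicit false

namespace Pool.Agent.K1H45.VX

open MvPolynomial Pool.Agent.K1H59.VX

theorem hom_smul {K : Type*} [Field K] {n : ℕ} (G : MvPolynomial (Fin n) ℤ) (e : ℕ)
    (hG : G.IsHomogeneous e) (t : K) (x : Fin n → K) :
    aeval (fun i => t * x i) G = t ^ e * aeval x G := by
  rw [aeval_def, aeval_def, eval₂_eq, eval₂_eq, Finset.mul_sum]
  refine Finset.sum_congr rfl fun s hs => ?_
  have h1 : ∑ i ∈ s.support, s i = e := by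
    have := hG (mem_support_iff.1 hs)
    rw [← this]
    simp [Finsupp.weight_apply, Finsupp.sum]
  simp only [mul_pow, Finset.prod_mul_distrib]
  rw [Finset.prod_pow_eq_pow_sum, h1]
  ring

/-- the points of the hyperplane over an extension -/
theorem van_ext {K L : Type} [Field K] [CharZero K] [Field L] [Algebra K L] {n : ℕ}
    (F : MvPolynomial (Fin n) ℤ) (l : Fin n → K) (j : Fin n) (hj : l j ≠ 0)
    (h : ∀ z : Fin n → K, ∑ i, l i * z i = 0 → aeval z F = 0) (z : Fin n → L)
    (hz : ∑ i, algebraMap K L (l i) * z i = 0) : aeval z F = 0 := by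
  classical
  let φ : Fin n → MvPolynomial (Fin n) K := fun i =>
    X i - C (if i = j then (l j)⁻¹ else 0) * ∑ k, C (l k) * X k
  have hP : aeval φ F = (0 : MvPolynomial (Fin n) K) := by
    apply MvPolynomial.funext
    intro x
    have e : eval x (aeval φ F) = aeval (fun i => eval x (φ i)) F := by
      have h0 : (eval x).comp (aeval φ : MvPolynomial (Fin n) ℤ →ₐ[ℤ] MvPolynomial (Fin n) K).toRingHom =
          (aeval (fun i => eval x (φ i)) : MvPolynomial (Fin n) ℤ →ₐ[ℤ] K).toRingHom := by
        apply MvPolynomial.ringHom_ext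
        · intro r
          simp
        · intro i
          simp
      exact RingHom.congr_fun h0 F
    rw [e, map_zero]
    apply h
    simp only [φ, map_sub, map_mul, map_sum, eval_X, eval_C, mul_sub, Finset.sum_sub_distrib]
    have e2 : ∑ i, l i * ((if i = j then (l j)⁻¹ else 0) * ∑ k, l k * x k) = ∑ k, l k * x k := by
      rw [Finset.sum_eq_single j]
      · rw [if_pos rfl, ← mul_assoc, mul_inv_cancel₀ hj, one_mul]
      · intro i _ hi
        rw [if_neg hi]
        ring
      · intro hi
        exact absurd (Finset.mem_univ j) hi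
    rw [e2, sub_self]
  have e : aeval z (aeval φ F : MvPolynomial (Fin n) K) = aeval (fun i => aeval z (φ i)) F := by
    have h0 : (aeval z : MvPolynomial (Fin n) K →ₐ[K] L).toRingHom.comp
        (aeval φ : MvPolynomial (Fin n) ℤ →ₐ[ℤ] MvPolynomial (Fin n) K).toRingHom =
          (aeval (fun i => aeval z (φ i)) : MvPolynomial (Fin n) ℤ →ₐ[ℤ] L).toRingHom := by
      apply MvPolynomial.ringHom_ext
      · intro r
        simp
      · intro i
        simp
    exact RingHom.congr_fun h0 F
  rw [hP, map_zero] at e
  rw [e]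
  congr 1
  congr 1
  funext i
  simp only [φ, map_sub, map_mul, map_sum, aeval_X, aeval_C]
  rw [hz, mul_zero, sub_zero]

theorem nlf_core {K L : Type} [Field K] [CharZero K] [Field L] [CharZero L] [IsAlgClosed L] [Algebra K L]
    {m : ℕ} (hm : 1 ≤ m) (F : MvPolynomial (Fin (m + 2)) ℤ) (d : ℕ) (hd : 2 ≤ d)
    (hF : F.IsHomogeneous d)
    (hsm : ∀ z : Fin (m + 2) → L, z ≠ 0 → aeval z F = 0 → ∃ i, aeval z (pderiv i F) ≠ 0)
    (l : Fin (m + 2) → K) (hl : l ≠ 0)
    (h : ∀ z : Fin (m + 2) → K, ∑ i, l i * z i = 0 → aeval z F = 0) : False := by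
  classical
  obtain ⟨j, hj⟩ := Function.ne_iff.1 hl
  replace hj : l j ≠ 0 := hj
  let c : Fin (m + 2) → L := fun i => algebraMap K L (l i)
  have hc : c j ≠ 0 := fun h0 => hj ((map_eq_zero _).1 h0)
  have hV : ∀ z : Fin (m + 2) → L, ∑ i, c i * z i = 0 → aeval z F = 0 :=
    fun z hz => van_ext F l j hj h z hz
  -- the vectors of the hyperplane
  let v : Fin (m + 2) → Fin (m + 2) → L := fun p i => if i = p then c j else if i = j then - c p else 0
  have hv : ∀ p, p ≠ j → ∀ g : Fin (m + 2) → L, ∑ i, g i * v p i = c j * g p - c p * g j := by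
    intro p hp g
    rw [Finset.sum_eq_add p j hp]
    · simp only [v, if_true, if_neg hp.symm]
      ring
    · intro i _ hi
      simp only [v, if_neg hi.1, if_neg hi.2, mul_zero]
    · intro h0
      exact absurd (Finset.mem_univ p) h0
    · intro h0
      exact absurd (Finset.mem_univ j) h0
  -- the gradient
  have hgrad : ∀ w : Fin (m + 2) → L, ∑ i, c i * w i = 0 → aeval w (pderiv j F) = 0 →
      ∀ i, aeval w (pderiv i F) = 0 := by
    intro w hw hwj i
    by_cases hi : i = j
    · rw [hi]
      exact hwj
    have hp : (aeval (ln w (v i)) F : Polynomial L) = 0 := by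
      apply Polynomial.funext
      intro t
      rw [aeval_ln, Polynomial.eval_zero]
      apply hV
      have e : ∑ k, c k * (w k + t * v i k) = ∑ k, c k * w k + t * ∑ k, c k * v i k := by
        rw [Finset.mul_sum, ← Finset.sum_add_distrib]
        exact Finset.sum_congr rfl fun k _ => by ring
      rw [e, hw, hv i hi]
      ring
    have h1 : Polynomial.eval 0 (Polynomial.derivative (aeval (ln w (v i)) F : Polynomial L)) = 0 := by
      rw [hp]
      simp
    rw [chain, Polynomial.eval_finsetSum] at h1
    have h2 : ∀ k, Polynomial.eval 0 (aeval (ln w (v i)) (pderiv k F) *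
        Polynomial.derivative (ln w (v i) k)) = aeval w (pderiv k F) * v i k := by
      intro k
      rw [Polynomial.eval_mul, ln_der, Polynomial.eval_C, aeval_ln]
      simp
    rw [Finset.sum_congr rfl fun k _ => h2 k, hv i hi, hwj, mul_zero, sub_zero] at h1
    exact (mul_eq_zero.1 h1).resolve_left hc
  have hfin : ∀ w : Fin (m + 2) → L, w ≠ 0 → ∑ i, c i * w i = 0 → aeval w (pderiv j F) = 0 → False := by
    intro w hw0 hw hwj
    obtain ⟨i, hi⟩ := hsm w hw0 (hV w hw)
    exact hi (hgrad w hw hwj i)
  -- two independent vectors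
  have h01 : (0 : Fin (m + 1)) ≠ ⟨1, by omega⟩ := by
    intro h0
    have := congrArg Fin.val h0
    simp at this
  let p := j.succAbove 0
  let q := j.succAbove ⟨1, by omega⟩
  have hp : p ≠ j := Fin.succAbove_ne j 0
  have hq : q ≠ j := Fin.succAbove_ne j _
  have hpq : p ≠ q := fun h0 => h01 (Fin.succAbove_right_injective h0)
  have hvc : ∀ r, r ≠ j → ∑ i, c i * v r i = 0 := by
    intro r hr
    rw [hv r hr]
    ring
  let P : Polynomial L := aeval (ln (v q) (v p)) (pderiv j F)
  by_cases hdeg : P.degree = 0
  · -- constant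
    obtain ⟨k, hk⟩ : ∃ k, P = Polynomial.C k := ⟨_, Polynomial.eq_C_of_degree_eq_zero hdeg⟩
    have hR : (aeval (ln (v p) (v q)) (pderiv j F) : Polynomial L) =
        Polynomial.C k * Polynomial.X ^ (d - 1) := by
      apply Polynomial.eq_of_infinite_eval_eq
      apply Set.Infinite.mono (s := {t : L | t ≠ 0})
      · intro t ht
        have ht' : t ≠ 0 := ht
        show Polynomial.eval t _ = Polynomial.eval t _
        rw [aeval_ln, Polynomial.eval_mul, Polynomial.eval_C, Polynomial.eval_pow, Polynomial.eval_X]
        have e1 : (fun i => v p i + t * v q i) = fun i => t * (v q i + t⁻¹ * v p i) := by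
          funext i
          field_simp
          ring
        rw [e1, hom_smul _ (d - 1) hF.pderiv, ← aeval_ln]
        have e2 : Polynomial.eval t⁻¹ P = k := by rw [hk, Polynomial.eval_C]
        show t ^ (d - 1) * Polynomial.eval t⁻¹ P = _
        rw [e2, mul_comm]
      · exact Set.Infinite.mono (fun t ht => by simpa using ht) (Set.finite_singleton (0 : L)).infinite_compl
    have h3 := congrArg (Polynomial.eval 0) hR
    rw [aeval_ln, Polynomial.eval_mul, Polynomial.eval_pow, Polynomial.eval_X,
      zero_pow (by omega : d - 1 ≠ 0), mul_zero] at h3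
    refine hfin (v p) ?_ (hvc p hp) (by simpa using h3)
    intro h0
    apply hc
    have := congrFun h0 p
    simpa [v] using this
  · obtain ⟨s, hs⟩ := IsAlgClosed.exists_root P hdeg
    have hs' : aeval (fun i => v q i + s * v p i) (pderiv j F) = 0 := by
      rw [← aeval_ln]
      exact hs
    refine hfin _ ?_ ?_ hs'
    · intro h0
      apply hc
      have := congrFun h0 q
      simpa [v, hpq.symm, hq] using this
    · have e : ∑ k, c k * (v q k + s * v p k) = ∑ k, c k * v q k + s * ∑ k, c k * v p k := by
        rw [Finset.mul_sum, ← Finset.sum_add_distrib]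
        exact Finset.sum_congr rfl fun k _ => by ring
      rw [e, hvc q hq, hvc p hp]
      ring

theorem t_NLF : S_NLF := by
  intro m F d hm hd hF hsm K _ _ l hl
  by_contra hcon
  push Not at hcon
  have hc : CharZero (AlgebraicClosure K) :=
    charZero_of_injective_algebraMap (algebraMap K (AlgebraicClosure K)).injective
  exact nlf_core (K := K) (L := AlgebraicClosure K) hm F d hd hF (hsm (AlgebraicClosure K)) l hl hcon

end Pool.Agent.K1H45.VX
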