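import Pool.Agent.K1H45.VX.Chain

/-!
# The second fundamental form of an irreducible hypersurface without hyperplanes is not zero
-/

set_option autoImplicit false

namespace Pool.Agent.K1H45.VX

open MvPolynomial Pool.Agent.K1H59.VX

/-- the algebra of the second fundamental form, with `X ^ r g` for `f` -/
theorem van_step {K : Type*} [Field K] [CharZero K] (f a b c A : Polynomial K)
    (hid : a ^ 2 * Polynomial.derivative (Polynomial.derivative f) -
      2 * a * Polynomial.derivative f * b + Polynomial.derivative f ^ 2 * c = A * f)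
    (ha : Polynomial.eval 0 a ≠ 0) (r : ℕ) (hr : Polynomial.X ^ (r + 2) ∣ f) :
    Polynomial.X ^ (r + 3) ∣ f := by
  obtain ⟨g, rfl⟩ := hr
  have h1 : Polynomial.derivative ((Polynomial.X : Polynomial K) ^ (r + 2) * g) =
      Polynomial.X ^ (r + 1) * (((r : Polynomial K) + 2) * g + Polynomial.X * Polynomial.derivative g) := by
    rw [Polynomial.derivative_mul, Polynomial.derivative_X_pow]
    push_cast
    simp only [Polynomial.C_add, Polynomial.C_ofNat, map_natCast]
    ring
  have h2 : Polynomial.derivative (Polynomial.derivative ((Polynomial.X : Polynomial K) ^ (r + 2) * g)) =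
      Polynomial.X ^ r * ((((r : Polynomial K) + 1) * ((r : Polynomial K) + 2)) * g +
        Polynomial.X * ((2 * (r : Polynomial K) + 4) * Polynomial.derivative g +
          Polynomial.X * Polynomial.derivative (Polynomial.derivative g))) := by
    rw [h1, Polynomial.derivative_mul, Polynomial.derivative_X_pow]
    simp only [Polynomial.derivative_mul, Polynomial.derivative_add, Polynomial.derivative_natCast,
      Polynomial.derivative_ofNat, Polynomial.derivative_X]
    push_cast
    simp only [Polynomial.C_add, Polynomial.C_1, map_natCast]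
    ring
  have h3 : (Polynomial.X : Polynomial K) ∣
      a ^ 2 * ((((r : Polynomial K) + 1) * ((r : Polynomial K) + 2)) * g) := by
    rw [h2, h1] at hid
    refine ⟨A * Polynomial.X * g + 2 * a * ((((r : Polynomial K) + 2) * g +
      Polynomial.X * Polynomial.derivative g)) * b -
      Polynomial.X ^ (r + 1) * (((r : Polynomial K) + 2) * g +
      Polynomial.X * Polynomial.derivative g) ^ 2 * c -
      a ^ 2 * ((2 * (r : Polynomial K) + 4) * Polynomial.derivative g +
          Polynomial.X * Polynomial.derivative (Polynomial.derivative g)), ?_⟩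
    have hX : (Polynomial.X : Polynomial K) ^ r ≠ 0 := pow_ne_zero _ Polynomial.X_ne_zero
    apply mul_left_cancel₀ hX
    linear_combination hid
  have h4 : Polynomial.eval 0 (a ^ 2 * ((((r : Polynomial K) + 1) * ((r : Polynomial K) + 2)) * g)) = 0 := by
    obtain ⟨q, hq⟩ := h3
    rw [hq]
    simp
  have h5 : Polynomial.eval 0 g = 0 := by
    simp only [Polynomial.eval_mul, Polynomial.eval_pow, Polynomial.eval_add, Polynomial.eval_natCast,
      Polynomial.eval_ofNat, Polynomial.eval_one] at h4
    have hr1 : ((r : K) + 1) * (r + 2) ≠ 0 := by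
      have : (((r + 1) * (r + 2) : ℕ) : K) ≠ 0 := Nat.cast_ne_zero.2 (by positivity)
      push_cast at this
      exact this
    rcases mul_eq_zero.1 h4 with h | h
    · exact absurd h (pow_ne_zero _ ha)
    · rcases mul_eq_zero.1 h with h | h
      · exact absurd h hr1
      · exact h
  obtain ⟨q, hq⟩ := Polynomial.X_dvd_iff.2 ((Polynomial.coeff_zero_eq_eval_zero g).trans h5)
  exact ⟨q, by rw [hq]; ring⟩

/-- `f` vanishes -/
theorem van {K : Type*} [Field K] [CharZero K] (f a b c A : Polynomial K)
    (hid : a ^ 2 * Polynomial.derivative (Polynomial.derivative f) -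
      2 * a * Polynomial.derivative f * b + Polynomial.derivative f ^ 2 * c = A * f)
    (ha : Polynomial.eval 0 a ≠ 0) (h0 : Polynomial.eval 0 f = 0)
    (h1 : Polynomial.eval 0 (Polynomial.derivative f) = 0) : f = 0 := by
  have hall : ∀ r : ℕ, Polynomial.X ^ (r + 2) ∣ f := by
    intro r
    induction r with
    | zero =>
      rw [Polynomial.X_pow_dvd_iff]
      intro d hd
      have : d = 0 ∨ d = 1 := by omega
      rcases this with rfl | rfl
      · rw [Polynomial.coeff_zero_eq_eval_zero]
        exact h0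
      · rw [← Polynomial.coeff_zero_eq_eval_zero, Polynomial.coeff_derivative] at h1
        simpa using h1
    | succ r ih => exact van_step f a b c A hid ha r ih
  by_contra hf
  have h2 := Polynomial.natDegree_le_of_dvd (hall f.natDegree) hf
  rw [Polynomial.natDegree_X_pow] at h2
  omega

theorem pd_comm {R : Type*} [CommRing R] {n : ℕ} (i j : Fin n) (F : MvPolynomial (Fin n) R) :
    pderiv i (pderiv j F) = pderiv j (pderiv i F) := by
  classical
  have hs : ∀ a b c : Fin n, pderiv a ((Pi.single b (1 : MvPolynomial (Fin n) R) :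
      Fin n → MvPolynomial (Fin n) R) c) = 0 := by
    intro a b c
    by_cases h : c = b
    · subst h
      rw [Pi.single_eq_same, Derivation.map_one_eq_zero]
    · rw [Pi.single_eq_of_ne h, map_zero]
  induction F using MvPolynomial.induction_on with
  | C a => simp
  | add p q hp hq => simp only [map_add, hp, hq]
  | mul_X p k hp =>
    simp only [pderiv_mul, map_add, pderiv_X, hs, hp, mul_zero, add_zero]
    ring

/-- `f(t) = F (z + t τ)` -/
noncomputable def L {R K : Type*} [CommRing R] [CommRing K] [Algebra R K] {n : ℕ} (z τ : Fin n → K)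
    (F : MvPolynomial (Fin n) R) : Polynomial K := aeval (ln z τ) F

theorem L_der {R K : Type*} [CommRing R] [CommRing K] [Algebra R K] {n : ℕ} (z τ : Fin n → K)
    (F : MvPolynomial (Fin n) R) :
    Polynomial.derivative (L z τ F) = ∑ i, Polynomial.C (τ i) * L z τ (pderiv i F) := by
  unfold L
  rw [chain]
  exact Finset.sum_congr rfl fun i _ => by rw [ln_der, mul_comm]

theorem L_der2 {R K : Type*} [CommRing R] [CommRing K] [Algebra R K] {n : ℕ} (z τ : Fin n → K)
    (F : MvPolynomial (Fin n) R) :
    Polynomial.derivative (Polynomial.derivative (L z τ F)) =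
      ∑ i, ∑ k, Polynomial.C (τ i) * Polynomial.C (τ k) * L z τ (pderiv i (pderiv k F)) := by
  rw [L_der]
  simp only [Polynomial.derivative_sum, Polynomial.derivative_mul, Polynomial.derivative_C, zero_mul,
    zero_add, L_der, Finset.mul_sum]
  rw [Finset.sum_comm]
  refine Finset.sum_congr rfl fun i _ => Finset.sum_congr rfl fun k _ => ?_
  ring

/-- the sum of the coefficients of the second fundamental form -/
theorem sumQ {K : Type*} [Field K] [CharZero K] {m : ℕ} (F : MvPolynomial (Fin (m + 2)) ℤ)
    (z τ : Fin (m + 2) → K) :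
    ∑ i, ∑ k, Polynomial.C (τ i) * Polynomial.C (τ k) * L z τ (Q F i k) =
      (L z τ (pderiv 0 F)) ^ 2 * Polynomial.derivative (Polynomial.derivative (L z τ F)) -
      2 * (L z τ (pderiv 0 F)) * Polynomial.derivative (L z τ F) *
        Polynomial.derivative (L z τ (pderiv 0 F)) +
      Polynomial.derivative (L z τ F) ^ 2 * (L z τ (pderiv 0 (pderiv 0 F))) := by
  have e0 : Polynomial.derivative (L z τ (pderiv 0 F)) =
      ∑ k, Polynomial.C (τ k) * L z τ (pderiv 0 (pderiv k F)) := by
    rw [L_der]
    refine Finset.sum_congr rfl fun k _ => ?_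
    rw [pd_comm]
  have e1 : ∀ i k : Fin (m + 2), L z τ (Q F i k) =
      (L z τ (pderiv 0 F)) ^ 2 * L z τ (pderiv i (pderiv k F)) -
      L z τ (pderiv 0 F) * L z τ (pderiv i F) * L z τ (pderiv 0 (pderiv k F)) -
      L z τ (pderiv 0 F) * L z τ (pderiv k F) * L z τ (pderiv 0 (pderiv i F)) +
      L z τ (pderiv i F) * L z τ (pderiv k F) * L z τ (pderiv 0 (pderiv 0 F)) := by
    intro i k
    unfold L Q
    simp only [map_sub, map_add, map_mul, map_pow]
  have s1 : ∑ i, ∑ k, Polynomial.C (τ i) * Polynomial.C (τ k) * ((L z τ (pderiv 0 F)) ^ 2 *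
      L z τ (pderiv i (pderiv k F))) = (L z τ (pderiv 0 F)) ^ 2 *
        Polynomial.derivative (Polynomial.derivative (L z τ F)) := by
    rw [L_der2, Finset.mul_sum]
    refine Finset.sum_congr rfl fun i _ => ?_
    rw [Finset.mul_sum]
    exact Finset.sum_congr rfl fun k _ => by ring
  have s2 : ∑ i, ∑ k, Polynomial.C (τ i) * Polynomial.C (τ k) * (L z τ (pderiv 0 F) *
      L z τ (pderiv i F) * L z τ (pderiv 0 (pderiv k F))) = L z τ (pderiv 0 F) *
        Polynomial.derivative (L z τ F) * Polynomial.derivative (L z τ (pderiv 0 F)) := by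
    rw [e0, L_der, mul_assoc, Finset.sum_mul_sum, Finset.mul_sum]
    refine Finset.sum_congr rfl fun i _ => ?_
    rw [Finset.mul_sum]
    exact Finset.sum_congr rfl fun k _ => by ring
  have s3 : ∑ i, ∑ k, Polynomial.C (τ i) * Polynomial.C (τ k) * (L z τ (pderiv 0 F) *
      L z τ (pderiv k F) * L z τ (pderiv 0 (pderiv i F))) = L z τ (pderiv 0 F) *
        Polynomial.derivative (L z τ F) * Polynomial.derivative (L z τ (pderiv 0 F)) := by
    rw [Finset.sum_comm, ← s2]
    refine Finset.sum_congr rfl fun i _ => Finset.sum_congr rfl fun k _ => by ring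
  have s4 : ∑ i, ∑ k, Polynomial.C (τ i) * Polynomial.C (τ k) * (L z τ (pderiv i F) *
      L z τ (pderiv k F) * L z τ (pderiv 0 (pderiv 0 F))) =
        Polynomial.derivative (L z τ F) ^ 2 * (L z τ (pderiv 0 (pderiv 0 F))) := by
    rw [L_der, pow_two, Finset.sum_mul_sum, Finset.sum_mul]
    refine Finset.sum_congr rfl fun i _ => ?_
    rw [Finset.sum_mul]
    exact Finset.sum_congr rfl fun k _ => by ring
  calc ∑ i, ∑ k, Polynomial.C (τ i) * Polynomial.C (τ k) * L z τ (Q F i k)
      = ∑ i, ∑ k, (Polynomial.C (τ i) * Polynomial.C (τ k) * ((L z τ (pderiv 0 F)) ^ 2 *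
          L z τ (pderiv i (pderiv k F))) -
        Polynomial.C (τ i) * Polynomial.C (τ k) * (L z τ (pderiv 0 F) *
          L z τ (pderiv i F) * L z τ (pderiv 0 (pderiv k F))) -
        Polynomial.C (τ i) * Polynomial.C (τ k) * (L z τ (pderiv 0 F) *
          L z τ (pderiv k F) * L z τ (pderiv 0 (pderiv i F))) +
        Polynomial.C (τ i) * Polynomial.C (τ k) * (L z τ (pderiv i F) *
          L z τ (pderiv k F) * L z τ (pderiv 0 (pderiv 0 F)))) := by
        refine Finset.sum_congr rfl fun i _ => Finset.sum_congr rfl fun k _ => ?_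
        rw [e1]
        ring
    _ = _ := by
        simp only [Finset.sum_add_distrib, Finset.sum_sub_distrib]
        rw [s1, s2, s3, s4]
        ring

theorem aeval_toQ {B : Type*} [CommRing B] [Algebra ℤ B] [Algebra ℚ B] {n : ℕ} (z : Fin n → B)
    (G : MvPolynomial (Fin n) ℤ) : aeval z (toQ G) = aeval z G := by
  have h : (aeval z : MvPolynomial (Fin n) ℚ →ₐ[ℚ] B).toRingHom.comp (map (Int.castRingHom ℚ)) =
      (aeval z : MvPolynomial (Fin n) ℤ →ₐ[ℤ] B).toRingHom := by
    apply MvPolynomial.ringHom_ext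
    · intro r
      simp
    · intro i
      simp
  exact RingHom.congr_fun h G

theorem toQ_inj {n : ℕ} : Function.Injective (toQ : MvPolynomial (Fin n) ℤ → MvPolynomial (Fin n) ℚ) :=
  map_injective _ (RingHom.injective_int _)

theorem Q_zero_left {m : ℕ} (F : MvPolynomial (Fin (m + 2)) ℤ) (k : Fin (m + 2)) : Q F 0 k = 0 := by
  unfold Q
  ring

theorem Q_zero_right {m : ℕ} (F : MvPolynomial (Fin (m + 2)) ℤ) (i : Fin (m + 2)) : Q F i 0 = 0 := by
  unfold Q
  rw [pd_comm i 0]
  ring

/-- a homogeneous polynomial does not divide its derivative -/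
theorem not_dvd_pderiv {n : ℕ} (F : MvPolynomial (Fin n) ℤ) (d : ℕ) (hd : 1 ≤ d)
    (hF : F.IsHomogeneous d) (i : Fin n) (h0 : pderiv i F ≠ 0) : ¬ (toQ F ∣ toQ (pderiv i F)) := by
  rintro ⟨G, hG⟩
  have h1 : toQ (pderiv i F) ≠ 0 := fun h => h0 (toQ_inj (by rw [h]; simp [toQ]))
  have h2 : toQ F ≠ 0 := by
    intro h
    rw [h, zero_mul] at hG
    exact h1 hG
  have h3 : G ≠ 0 := by
    rintro rfl
    rw [mul_zero] at hG
    exact h1 hG
  have e1 : (toQ F).totalDegree = d := (hF.map _).totalDegree h2
  have e2 : (toQ (pderiv i F)).totalDegree = d - 1 := ((hF.pderiv).map _).totalDegree h1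
  have e3 := totalDegree_mul_of_isDomain h2 h3
  rw [← hG] at e3
  omega

theorem core {m : ℕ} (F : MvPolynomial (Fin (m + 2)) ℤ) (d : ℕ) (hd : 1 ≤ d) (hF : F.IsHomogeneous d)
    (hF0 : pderiv 0 F ≠ 0) (hNH : NoHyperplane F)
    (hall : ∀ i k : Fin (m + 2), toQ F ∣ toQ (Q F i k)) (K : Type) [Field K] [CharZero K]
    (ψ : MvPolynomial (Fin (m + 2)) ℚ →+* K) (hψ : ∀ H, ψ H = 0 ↔ toQ F ∣ H) : False := by
  choose G hG using hall
  let z : Fin (m + 2) → K := fun i => ψ (X i)
  have hz : ∀ H : MvPolynomial (Fin (m + 2)) ℤ, aeval z H = ψ (toQ H) := by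
    intro H
    have h : (aeval z : MvPolynomial (Fin (m + 2)) ℤ →ₐ[ℤ] K).toRingHom =
        ψ.comp (map (Int.castRingHom ℚ)) := by
      apply MvPolynomial.ringHom_ext
      · intro r
        simp
      · intro i
        simp [z]
    exact RingHom.congr_fun h H
  have hz0 : ∀ H : MvPolynomial (Fin (m + 2)) ℤ, aeval z H = 0 ↔ toQ F ∣ toQ H := by
    intro H
    rw [hz, hψ]
  have h1 : aeval z F = 0 := (hz0 F).2 dvd_rfl
  have h2 : aeval z (pderiv 0 F) ≠ 0 := fun h => not_dvd_pderiv F d hd hF 0 hF0 ((hz0 _).1 h)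
  obtain ⟨w, hw, hwF⟩ := hNH K (fun i => aeval z (pderiv i F)) (fun h => h2 (congrFun h 0))
  have heuler : ∑ i, aeval z (pderiv i F) * z i = 0 := by
    have h := congrArg (aeval z) hF.sum_X_mul_pderiv
    rw [map_sum, map_nsmul, h1, smul_zero] at h
    rw [← h]
    refine Finset.sum_congr rfl fun i _ => ?_
    rw [map_mul, aeval_X, mul_comm]
  set τ : Fin (m + 2) → K := fun i => w i - z i with hτ
  have hfz : L z τ F = 0 := by
    apply van (L z τ F) (L z τ (pderiv 0 F)) (Polynomial.derivative (L z τ (pderiv 0 F)))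
      (L z τ (pderiv 0 (pderiv 0 F)))
      (∑ i, ∑ k, Polynomial.C (τ i) * Polynomial.C (τ k) * L z τ (G i k))
    · rw [← sumQ, Finset.sum_mul]
      refine Finset.sum_congr rfl fun i _ => ?_
      rw [Finset.sum_mul]
      refine Finset.sum_congr rfl fun k _ => ?_
      have e : L z τ (Q F i k) = L z τ F * L z τ (G i k) := by
        unfold L
        rw [← aeval_toQ, hG, map_mul, aeval_toQ]
      rw [e]
      ring
    · unfold L
      rw [aeval_ln]
      simpa using h2
    · unfold L
      rw [aeval_ln]
      simpa using h1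
    · rw [L_der, Polynomial.eval_finsetSum]
      have e : ∀ i, Polynomial.eval 0 (Polynomial.C (τ i) * L z τ (pderiv i F)) =
          aeval z (pderiv i F) * w i - aeval z (pderiv i F) * z i := by
        intro i
        unfold L
        rw [Polynomial.eval_mul, Polynomial.eval_C, aeval_ln]
        simp only [zero_mul, add_zero, hτ]
        ring
      rw [Finset.sum_congr rfl fun i _ => e i, Finset.sum_sub_distrib, hw, heuler, sub_zero]
  apply hwF
  have h3 := aeval_ln F z τ 1
  unfold L at hfz
  rw [hfz, Polynomial.eval_zero] at h3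
  rw [h3]
  congr 1
  congr 1
  funext i
  simp [hτ]

theorem t_NV : S_NV := by
  intro m F d hd hF hirr hF0 hNH
  by_contra hcon
  push Not at hcon
  have hall : ∀ i k : Fin (m + 2), toQ F ∣ toQ (Q F i k) := by
    intro i k
    refine Fin.cases ?_ (fun i => ?_) i
    · rw [Q_zero_left]
      simp [toQ]
    · refine Fin.cases ?_ (fun k => ?_) k
      · rw [Q_zero_right]
        simp [toQ]
      · exact hcon i k
  have hIp : (Ideal.span {toQ F}).IsPrime := (Ideal.span_singleton_prime hirr.ne_zero).2 hirr.prime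
  let A := MvPolynomial (Fin (m + 2)) ℚ ⧸ Ideal.span {toQ F}
  let K := FractionRing A
  have hc : CharZero K := charZero_of_injective_algebraMap (algebraMap ℚ K).injective
  refine core F d hd hF hF0 hNH hall K
    ((algebraMap A K).comp (Ideal.Quotient.mk (Ideal.span {toQ F}))) ?_
  intro H
  rw [RingHom.comp_apply, map_eq_zero_iff _ (IsFractionRing.injective A K),
    Ideal.Quotient.eq_zero_iff_mem, Ideal.mem_span_singleton]

end Pool.Agent.K1H45.VX
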