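import Pool.Agent.K1H59.VX.Stm

/-!
# Restriction of a polynomial to a line
-/

set_option autoImplicit false

namespace Pool.Agent.K1H45.VX

open MvPolynomial

/-- chain rule -/
theorem chain {R K : Type*} [CommRing R] [CommRing K] [Algebra R K] {n : ℕ} (F : MvPolynomial (Fin n) R)
    (φ : Fin n → Polynomial K) :
    Polynomial.derivative (aeval φ F) =
      ∑ i, aeval φ (pderiv i F) * Polynomial.derivative (φ i) := by
  classical
  induction F using MvPolynomial.induction_on with
  | C a =>
    simp [Polynomial.algebraMap_eq, IsScalarTower.algebraMap_apply R K (Polynomial K)]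
  | add p q hp hq =>
    simp only [map_add, hp, hq, add_mul, Finset.sum_add_distrib]
  | mul_X p j hp =>
    rw [map_mul, aeval_X, Polynomial.derivative_mul, hp]
    have : ∀ i, aeval φ (pderiv i (p * X j)) * Polynomial.derivative (φ i) =
        aeval φ (pderiv i p) * Polynomial.derivative (φ i) * φ j +
          (if i = j then aeval φ p * Polynomial.derivative (φ i) else 0) := by
      intro i
      rw [pderiv_mul, map_add, map_mul, map_mul, aeval_X, pderiv_X]
      by_cases h : i = j
      · subst h
        simp
        ring
      · rw [if_neg h, Pi.single_eq_of_ne (Ne.symm h)]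
        simp
        ring
    rw [Finset.sum_congr rfl (fun i _ => this i), Finset.sum_add_distrib, ← Finset.sum_mul]
    simp

/-- the line `z + t τ` -/
noncomputable def ln {K : Type*} [CommRing K] {n : ℕ} (z τ : Fin n → K) (i : Fin n) : Polynomial K :=
  Polynomial.C (z i) + Polynomial.X * Polynomial.C (τ i)

theorem ln_der {K : Type*} [CommRing K] {n : ℕ} (z τ : Fin n → K) (i : Fin n) :
    Polynomial.derivative (ln z τ i) = Polynomial.C (τ i) := by
  simp [ln]

theorem ln_eval {K : Type*} [CommRing K] {n : ℕ} (z τ : Fin n → K) (i : Fin n) (t : K) :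
    Polynomial.eval t (ln z τ i) = z i + t * τ i := by
  simp [ln]
  ring

theorem aeval_ln {R K : Type*} [CommRing R] [CommRing K] [Algebra R K] {n : ℕ}
    (F : MvPolynomial (Fin n) R) (z τ : Fin n → K) (t : K) :
    Polynomial.eval t (aeval (ln z τ) F) = aeval (fun i => z i + t * τ i) F := by
  have h : (Polynomial.eval t (aeval (ln z τ) F)) =
      ((Polynomial.aeval t).restrictScalars R : Polynomial K →ₐ[R] K) (aeval (ln z τ) F) := by
    simp [Polynomial.coe_aeval_eq_eval]
  rw [h, ← AlgHom.comp_apply, MvPolynomial.comp_aeval]
  congr 1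
  congr 1
  funext i
  simp [ln, Polynomial.coe_aeval_eq_eval]
  ring

end Pool.Agent.K1H45.VX
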